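import Pool.Agent.Helper64.HG.Stmts

/-! Module CYC: cycles are circle graphs. -/

set_option autoImplicit false

namespace Pool.Agent.Helper64.HG

theorem cyc_ovl (n i j : ℕ) (hn : 3 ≤ n) (hj : j < n) (hij : i < j)
    (a b c d : ℕ) (ha : a = if i + 1 = n then 1 else 2 * i)
    (hb : b = if i + 1 = n then 2 * n - 2 else 2 * i + 3)
    (hc : c = if j + 1 = n then 1 else 2 * j)
    (hd : d = if j + 1 = n then 2 * n - 2 else 2 * j + 3) :
    (j = i + 1 ∨ (i = 0 ∧ j + 1 = n)) ↔
      ((a < c ∧ c < b ∧ b < d) ∨ (c < a ∧ a < d ∧ d < b)) := by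
  rw [if_neg (by omega)] at ha hb
  by_cases h : j + 1 = n
  · rw [if_pos h] at hc hd
    omega
  · rw [if_neg h] at hc hd
    omega

theorem st_CYC (hX : ST_XFER) : ST_CYC := by
  intro V _ G L hic hcov
  obtain ⟨h3, hnd, hadj⟩ := hic
  have hex : ∀ v, ∃ i, ∃ h : i < L.length, L[i] = v := fun v => List.getElem_of_mem (hcov v)
  choose idx hlt hidx using hex
  have hinj : ∀ u v, idx u = idx v → u = v := by
    intro u v h
    rw [← hidx u, ← hidx v]
    simp only [h]
  refine hX V ℕ G (fun v => if idx v + 1 = L.length then 1 else 2 * idx v)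
    (fun v => if idx v + 1 = L.length then 2 * L.length - 2 else 2 * idx v + 3) ?_
  refine ⟨?_, ?_, ?_, ?_, ?_⟩
  · intro v
    have := hlt v
    split_ifs <;> omega
  · intro u v huv
    have := hlt u
    have := hlt v
    apply hinj
    dsimp only at huv
    split_ifs at huv <;> omega
  · intro u v huv
    have := hlt u
    have := hlt v
    apply hinj
    dsimp only at huv
    split_ifs at huv <;> omega
  · intro u v
    have := hlt u
    have := hlt v
    split_ifs <;> omega
  · intro u v
    rcases lt_trichotomy (idx u) (idx v) with h | h | h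
    · have h1 := hadj (idx u) (idx v) (hlt u) (hlt v) h
      rw [hidx u, hidx v] at h1
      rw [h1]
      exact cyc_ovl _ _ _ h3 (hlt v) h _ _ _ _ rfl rfl rfl rfl
    · have e := hinj u v h
      subst e
      constructor
      · intro ha
        exact absurd ha G.irrefl
      · rintro (ha | ha)
        · exact absurd ha.1 (lt_irrefl _)
        · exact absurd ha.1 (lt_irrefl _)
    · have h1 := hadj (idx v) (idx u) (hlt v) (hlt u) h
      rw [hidx u, hidx v] at h1
      rw [G.adj_comm, h1, Ovl, or_comm (b := _ ∧ _ ∧ _)]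
      exact cyc_ovl _ _ _ h3 (hlt u) h _ _ _ _ rfl rfl rfl rfl

end Pool.Agent.Helper64.HG
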