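import Pool.Agent.Helper64.HG.Stmts

/-! Module ISW: full wheels and the explicit graphs `wheelG n S`. -/

set_option autoImplicit false

namespace Pool.Agent.Helper64.HG

theorem isw_val {n : ℕ} [NeZero n] (hn : 3 ≤ n) (i : ZMod n) : (i + 1).val = (i.val + 1) % n := by
  rw [ZMod.val_add, ZMod.val_one'' (by omega)]

theorem isw_ne {n : ℕ} (hn : 3 ≤ n) (i : ZMod n) : i ≠ i + 1 := by
  intro h
  have h1 : (1 : ZMod n) = 0 := by
    have := congrArg (fun t => t - i) h
    simpa using this.symm
  have h2 : ((1 : ℕ) : ZMod n) = 0 := by exact_mod_cast h1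
  rw [ZMod.natCast_eq_zero_iff] at h2
  have := Nat.le_of_dvd (by norm_num) h2
  omega

theorem isw_ne2 {n : ℕ} (hn : 3 ≤ n) (i : ZMod n) : i ≠ i + 2 := by
  intro h
  have h1 : (2 : ZMod n) = 0 := by
    have := congrArg (fun t => t - i) h
    simpa using this.symm
  have h2 : ((2 : ℕ) : ZMod n) = 0 := by exact_mod_cast h1
  rw [ZMod.natCast_eq_zero_iff] at h2
  have := Nat.le_of_dvd (by norm_num) h2
  omega

theorem isw_cyc {n : ℕ} [NeZero n] (hn : 3 ≤ n) (i j : ZMod n) (hij : i.val < j.val) :
    ((j = i + 1 ∨ i = j + 1) ↔ (j.val = i.val + 1 ∨ (i.val = 0 ∧ j.val + 1 = n))) := by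
  have hj := ZMod.val_lt j
  have e1 : j = i + 1 ↔ j.val = i.val + 1 := by
    constructor
    · intro h
      have := congrArg ZMod.val h
      rw [isw_val hn, Nat.mod_eq_of_lt (by omega)] at this
      exact this
    · intro h
      apply ZMod.val_injective n
      rw [isw_val hn, Nat.mod_eq_of_lt (by omega)]
      exact h
  have e2 : i = j + 1 ↔ (i.val = 0 ∧ j.val + 1 = n) := by
    constructor
    · intro h
      have h' := congrArg ZMod.val h
      rw [isw_val hn] at h'
      by_cases hjn : j.val + 1 = n
      · rw [hjn, Nat.mod_self] at h'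
        exact ⟨h', hjn⟩
      · rw [Nat.mod_eq_of_lt (by omega)] at h'
        omega
    · rintro ⟨h1, h2⟩
      apply ZMod.val_injective n
      rw [isw_val hn, h1, h2, Nat.mod_self]
  rw [e1, e2]

theorem isw_adj {V : Type} {G : SimpleGraph V} {n : ℕ} [NeZero n] (g : ZMod n → V)
    (hn : 3 ≤ n)
    (h : ∀ i j : ZMod n, i.val < j.val →
      (G.Adj (g i) (g j) ↔ (j.val = i.val + 1 ∨ (i.val = 0 ∧ j.val + 1 = n)))) (i j : ZMod n) :
    G.Adj (g i) (g j) ↔ (j = i + 1 ∨ i = j + 1) := by
  rcases lt_trichotomy i.val j.val with hij | hij | hij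
  · rw [h i j hij, isw_cyc hn i j hij]
  · have e : i = j := ZMod.val_injective n hij
    subst e
    constructor
    · intro ha
      exact absurd ha (G.irrefl)
    · rintro (h1 | h1)
      · exact absurd h1 (isw_ne hn i)
      · exact absurd h1 (isw_ne hn i)
  · rw [G.adj_comm, h j i hij, ← isw_cyc hn j i hij, or_comm]

theorem isw_ws {n : ℕ} (S : Set (ZMod n)) (hn : 3 ≤ n) (i j : ZMod n) :
    (wheelG n S).Adj (some i) (some j) ↔ (j = i + 1 ∨ i = j + 1) := by
  rw [wheelG, SimpleGraph.fromRel_adj]
  constructor
  · rintro ⟨-, (⟨k, h1, h2⟩ | ⟨k, -, h1, -⟩) | (⟨k, h1, h2⟩ | ⟨k, -, h1, -⟩)⟩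
    · simp only [Option.some.injEq] at h1 h2
      subst h1
      exact Or.inl h2
    · simp at h1
    · simp only [Option.some.injEq] at h1 h2
      subst h1
      exact Or.inr h2
    · simp at h1
  · rintro (h | h)
    · subst h
      refine ⟨?_, Or.inl (Or.inl ⟨i, rfl, rfl⟩)⟩
      intro h
      exact isw_ne hn i (Option.some.inj h)
    · subst h
      refine ⟨?_, Or.inr (Or.inl ⟨j, rfl, rfl⟩)⟩
      intro h
      exact isw_ne hn j (Option.some.inj h).symm

theorem isw_ns {n : ℕ} (S : Set (ZMod n)) (j : ZMod n) :
    (wheelG n S).Adj none (some j) ↔ j ∈ S := by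
  rw [wheelG, SimpleGraph.fromRel_adj]
  constructor
  · rintro ⟨-, (⟨k, h1, h2⟩ | ⟨k, hk, -, h1⟩) | (⟨k, h1, h2⟩ | ⟨k, hk, h1, h2⟩)⟩
    · simp at h1
    · simp only [Option.some.injEq] at h1
      subst h1
      exact hk
    · simp at h2
    · simp at h1
  · intro h
    exact ⟨by simp, Or.inl (Or.inr ⟨j, h, rfl, rfl⟩)⟩

theorem st_ISW : ST_ISW := by
  intro V G hG
  constructor
  · rintro ⟨h, L, a, b, c, hW, hcov⟩
    obtain ⟨h3, hnd, hadj⟩ := hW.ic
    have hne : NeZero L.length := ⟨by omega⟩
    set n := L.length with hn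
    let g : ZMod n → V := fun i => L[i.val]'(ZMod.val_lt i)
    have gmem : ∀ i, g i ∈ L := fun i => List.getElem_mem _
    have ginj : Function.Injective g := by
      intro i j hij
      apply ZMod.val_injective n
      exact (List.Nodup.getElem_inj_iff hnd).1 hij
    have gadj : ∀ i j, G.Adj (g i) (g j) ↔ (j = i + 1 ∨ i = j + 1) := by
      apply isw_adj g h3
      intro i j hij
      exact hadj i.val j.val (ZMod.val_lt i) (ZMod.val_lt j) hij
    have gsurj : ∀ x ∈ L, ∃ i, g i = x := by
      intro x hx
      obtain ⟨k, hk, hkx⟩ := List.getElem_of_mem hx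
      refine ⟨(k : ZMod n), ?_⟩
      have : (k : ZMod n).val = k := ZMod.val_natCast_of_lt hk
      simp only [g, this, hkx]
    let S : Set (ZMod n) := {i | G.Adj h (g i)}
    refine ⟨n, S, h3, ?_, ?_, ?_⟩
    · obtain ⟨ia, rfl⟩ := gsurj a hW.aL
      obtain ⟨ib, rfl⟩ := gsurj b hW.bL
      obtain ⟨ic, rfl⟩ := gsurj c hW.cL
      have hab : ia ≠ ib := fun e => hW.ab (by rw [e])
      have hac : ia ≠ ic := fun e => hW.ac (by rw [e])
      have hbc : ib ≠ ic := fun e => hW.bc (by rw [e])
      have h2 : 2 < S.ncard :=
        (Set.two_lt_ncard_iff (Set.toFinite S)).2 ⟨ia, ib, ic, hW.ha, hW.hb, hW.hc, hab, hac, hbc⟩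
      exact h2
    · intro i hi
      have a1 : G.Adj (g i) (g (i + 1)) := (gadj _ _).2 (Or.inl rfl)
      have a2 : G.Adj (g (i + 1)) (g (i + 2)) := (gadj _ _).2 (Or.inl (by ring))
      have hi' : G.Adj h (g i) := hi
      constructor
      · intro h1
        exact hG.1 (g i) h (g (i + 1)) hi'.symm h1 a1
      · intro h1
        have h1' : G.Adj h (g (i + 2)) := h1
        refine hG.2 h (g i) (g (i + 1)) (g (i + 2)) ?_ ?_ hi' a1 a2 h1'.symm
        · intro e
          exact hW.hL (e ▸ gmem (i + 1))
        · intro e
          exact isw_ne2 h3 i (ginj e)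
    · let f : Option (ZMod n) → V := fun o => o.elim h g
      have finj : Function.Injective f := by
        intro o1 o2 ho
        cases o1 with
        | none =>
          cases o2 with
          | none => rfl
          | some j => exact absurd (gmem j) (by rw [show g j = h from ho.symm]; exact hW.hL)
        | some i =>
          cases o2 with
          | none => exact absurd (gmem i) (by rw [show g i = h from ho]; exact hW.hL)
          | some j => exact congrArg some (ginj ho)
      have fsurj : Function.Surjective f := by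
        intro x
        rcases hcov x with hx | hx
        · exact ⟨none, hx.symm⟩
        · obtain ⟨i, hi⟩ := gsurj x hx
          exact ⟨some i, hi⟩
      let e : Option (ZMod n) ≃ V := Equiv.ofBijective f ⟨finj, fsurj⟩
      have he : ∀ o, e o = f o := fun o => rfl
      have hrel : ∀ o1 o2, G.Adj (e o1) (e o2) ↔ (wheelG n S).Adj o1 o2 := by
        intro o1 o2
        rw [he, he]
        cases o1 with
        | none =>
          cases o2 with
          | none =>
            constructor
            · intro ha
              exact absurd ha (G.irrefl)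
            · intro ha
              exact absurd ha ((wheelG n S).irrefl)
          | some j =>
            rw [isw_ns]
            exact Iff.rfl
        | some i =>
          cases o2 with
          | none =>
            rw [(wheelG n S).adj_comm, isw_ns, G.adj_comm]
            exact Iff.rfl
          | some j =>
            rw [isw_ws S h3]
            exact gadj i j
      let φ : wheelG n S ≃g G := ⟨e, fun {o1 o2} => hrel o1 o2⟩
      exact ⟨φ.symm⟩
  · rintro ⟨n, S, hn, hS, hS2, ⟨φ⟩⟩
    have hne : NeZero n := ⟨by omega⟩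
    let ψ : wheelG n S ≃g G := φ.symm
    let g : ZMod n → V := fun i => ψ (some i)
    have ginj : Function.Injective g := fun i j hij => Option.some.inj (ψ.injective hij)
    have gadj : ∀ i j, G.Adj (g i) (g j) ↔ (j = i + 1 ∨ i = j + 1) := by
      intro i j
      rw [← isw_ws S hn i j]
      exact ψ.map_rel_iff
    let L : List V := List.ofFn (fun k : Fin n => g ((k.val : ℕ) : ZMod n))
    have hlen : L.length = n := List.length_ofFn
    have hget : ∀ (k : ℕ) (hk : k < L.length), L[k] = g ((k : ℕ) : ZMod n) := by
      intro k hk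
      simp only [L, List.getElem_ofFn]
    have hval : ∀ k : ℕ, k < n → ((k : ℕ) : ZMod n).val = k := fun k hk =>
      ZMod.val_natCast_of_lt hk
    have gL : ∀ i, g i ∈ L := by
      intro i
      have hi := ZMod.val_lt i
      have : L[i.val]'(by omega) = g i := by
        rw [hget]
        congr 1
        exact ZMod.natCast_zmod_val i
      rw [← this]
      exact List.getElem_mem _
    obtain ⟨a, b, c, ha, hb, hc, hab, hac, hbc⟩ :=
      (Set.two_lt_ncard_iff (Set.toFinite S)).1 (show 2 < S.ncard from hS)
    have hhub : ∀ i ∈ S, G.Adj (ψ none) (g i) := by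
      intro i hi
      exact ψ.map_rel_iff.2 ((isw_ns S i).2 hi)
    refine ⟨ψ none, L, g a, g b, g c, ⟨⟨by omega, ?_, ?_⟩, ?_, gL a, gL b, gL c,
      fun e => hab (ginj e), fun e => hac (ginj e), fun e => hbc (ginj e),
      hhub a ha, hhub b hb, hhub c hc⟩, ?_⟩
    · apply List.nodup_ofFn.2
      intro k l hkl
      have h1 := congrArg ZMod.val (ginj hkl)
      rw [hval _ k.2, hval _ l.2] at h1
      exact Fin.ext h1
    · intro i j hi hj hij
      rw [hget i hi, hget j hj, gadj]
      have hi' : i < n := by omega
      have hj' : j < n := by omega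
      have := isw_cyc hn (i : ZMod n) (j : ZMod n) (by rw [hval i hi', hval j hj']; exact hij)
      rw [hval i hi', hval j hj'] at this
      rw [hlen]
      exact this
    · intro hmem
      obtain ⟨k, hk, hkx⟩ := List.getElem_of_mem hmem
      rw [hget k hk] at hkx
      have := ψ.injective hkx
      simp at this
    · intro x
      rcases hx : φ x with _ | i
      · left
        have := congrArg ψ hx
        rw [← this]
        exact (φ.symm_apply_apply x).symm
      · right
        have := congrArg ψ hx
        have hxe : x = g i := by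
          rw [show g i = ψ (some i) from rfl, ← this]
          exact (φ.symm_apply_apply x).symm
        rw [hxe]
        exact gL i

end Pool.Agent.Helper64.HG
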