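import Pool.Agent.Helper5.HG.MK2

/-! Module KT: deleting a path of a subdivided `K₄` leaves a theta. -/

set_option autoImplicit false

namespace Pool.Agent.Helper64.HG

theorem kt_anti {V : Type} {G : SimpleGraph V} {x : Fin 4 → V} {A : Fin 4 → Fin 4 → List V}
    (h : KSys G x A) {i k l : Fin 4} (nki : k ≠ i) (nkl : k ≠ l) (nil : i ≠ l) :
    Anti G (A k l) (A k i ++ x i :: A i l) := by
  intro a ha b hb
  simp only [List.mem_append, List.mem_cons] at hb
  rcases hb with hb | hb | hb
  · exact h.anti k l k i nkl nki (fun e => nil e.2.symm) (fun e => nki e.1) a ha b hb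
  · subst hb
    have := h.antix k l i nkl nki.symm nil (x i) (List.mem_singleton_self _) a ha
    exact ⟨this.1.symm, fun e => this.2 e.symm⟩
  · exact h.anti k l i l nkl nil (fun e => nki e.1) (fun e => nkl e.1) a ha b hb

theorem kt_anti2 {V : Type} {G : SimpleGraph V} {x : Fin 4 → V} {A : Fin 4 → Fin 4 → List V}
    (h : KSys G x A) {i j k l : Fin 4} (nij : i ≠ j) (nki : k ≠ i) (nkj : k ≠ j) (nkl : k ≠ l)
    (nil : i ≠ l) (njl : j ≠ l) (hne : A i j ≠ []) :
    Anti G (A k i ++ x i :: A i l) (A k j ++ x j :: A j l) := by
  intro a ha b hb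
  simp only [List.mem_append, List.mem_cons] at ha hb
  rcases ha with ha | ha | ha
  · rcases hb with hb | hb | hb
    · exact h.anti k i k j nki nkj (fun e => nij e.2) (fun e => nkj e.1) a ha b hb
    · subst hb
      have := h.antix k i j nki nkj.symm nij.symm (x j) (List.mem_singleton_self _) a ha
      exact ⟨this.1.symm, fun e => this.2 e.symm⟩
    · exact h.anti k i j l nki njl (fun e => nkj e.1) (fun e => nkl e.1) a ha b hb
  · subst ha
    rcases hb with hb | hb | hb
    · exact h.antix k j i nkj nki.symm nij (x i) (List.mem_singleton_self _) b hb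
    · subst hb
      exact ⟨fun e => nij (h.inj e), h.nedge i j nij hne⟩
    · exact h.antix j l i njl nij nil (x i) (List.mem_singleton_self _) b hb
  · rcases hb with hb | hb | hb
    · exact h.anti i l k j nil nkj (fun e => nki e.1.symm) (fun e => nij e.1) a ha b hb
    · subst hb
      have := h.antix i l j nil nij.symm njl (x j) (List.mem_singleton_self _) a ha
      exact ⟨this.1.symm, fun e => this.2 e.symm⟩
    · exact h.anti i l j l nil njl (fun e => nij e.1) (fun e => nil e.1) a ha b hb

theorem st_KT (hCAT : ST_CAT) (hCNS : ST_CNS) (hSNC : ST_SNC) : ST_KT := by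
  intro V G x A i j k l h nij nik nil njk njl nkl hne h2 hi hj
  have hkl : A k l ≠ [] := by
    intro e
    rw [e] at h2
    simp at h2
  refine ⟨x k, x l, A k l, A k i ++ x i :: A i l, A k j ++ x j :: A j l,
    fun e => nkl (h.inj e), h.nedge k l nkl hkl, h.link k l nkl hkl,
    mk2_link hCAT hCNS hSNC h nik.symm nil nkl, mk2_link hCAT hCNS hSNC h njk.symm njl nkl,
    kt_anti h nik.symm nkl nil, kt_anti h njk.symm nkl njl,
    kt_anti2 h nij nik.symm njk.symm nkl nil njl hne, h2, ?_, ?_⟩
  · rw [List.length_append, List.length_cons]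
    rcases hi with hi | hi
    · have := List.length_pos_iff.2 hi
      omega
    · have := List.length_pos_iff.2 hi
      omega
  · rw [List.length_append, List.length_cons]
    rcases hj with hj | hj
    · have := List.length_pos_iff.2 hj
      omega
    · have := List.length_pos_iff.2 hj
      omega

end Pool.Agent.Helper64.HG
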