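import Pool.Agent.Helper5.HG.MT

/-! Module MB: deleting a vertex of a full edge-with-three-paths leaves a circle graph. -/

set_option autoImplicit false

namespace Pool.Agent.Helper64.HG

theorem mb_map {V : Type} {S : Set V} {A : List V} (hA : ∀ a ∈ A, a ∈ S) :
    (A.attachWith (fun v => v ∈ S) hA).map Subtype.val = A := by
  simp

theorem mb_head {V : Type} {S : Set V} {A : List V} (hA : ∀ a ∈ A, a ∈ S) (x : S) :
    (A.attachWith (fun v => v ∈ S) hA).head? = some x ↔ A.head? = some x.val := by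
  have e : A.head? = ((A.attachWith (fun v => v ∈ S) hA).head?).map Subtype.val := by
    rw [← List.head?_map, mb_map]
  rw [e]
  constructor
  · intro h
    rw [h]
    rfl
  · intro h
    rw [Option.map_eq_some_iff] at h
    obtain ⟨y, hy, hyx⟩ := h
    rw [hy, Subtype.ext hyx]

theorem mb_last {V : Type} {S : Set V} {A : List V} (hA : ∀ a ∈ A, a ∈ S) (x : S) :
    (A.attachWith (fun v => v ∈ S) hA).getLast? = some x ↔ A.getLast? = some x.val := by
  have e : A.getLast? = ((A.attachWith (fun v => v ∈ S) hA).getLast?).map Subtype.val := by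
    rw [← List.getLast?_map, mb_map]
  rw [e]
  constructor
  · intro h
    rw [h]
    rfl
  · intro h
    rw [Option.map_eq_some_iff] at h
    obtain ⟨y, hy, hyx⟩ := h
    rw [hy, Subtype.ext hyx]

theorem mb_ip {V : Type} {G : SimpleGraph V} {S : Set V} {A : List V} (hA : ∀ a ∈ A, a ∈ S)
    (h : IP G A) : IP (G.induce S) (A.attachWith (fun v => v ∈ S) hA) := by
  refine ⟨?_, ?_⟩
  · apply List.Nodup.of_map (f := Subtype.val)
    rw [mb_map]
    exact h.1
  · intro i j hi hj hij
    have hi' : i < A.length := by simpa using hi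
    have hj' : j < A.length := by simpa using hj
    rw [List.getElem_attachWith, List.getElem_attachWith]
    exact h.2 i j hi' hj' hij

theorem mb_link {V : Type} {G : SimpleGraph V} {S : Set V} {u w : V} {A : List V}
    (hA : ∀ a ∈ A, a ∈ S) (hu : u ∈ S) (hw : w ∈ S) (h : Link G u A w) :
    Link (G.induce S) ⟨u, hu⟩ (A.attachWith (fun v => v ∈ S) hA) ⟨w, hw⟩ := by
  obtain ⟨h1, h2, h3, h4, h5, h6⟩ := h
  refine ⟨?_, mb_ip hA h2, ?_, ?_, ?_, ?_⟩
  · intro e
    apply h1
    rw [← mb_map hA, e]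
    rfl
  · rw [List.mem_attachWith]
    exact h3
  · rw [List.mem_attachWith]
    exact h4
  · intro x hx
    rw [List.mem_attachWith] at hx
    rw [mb_head]
    exact h5 x.val hx
  · intro x hx
    rw [List.mem_attachWith] at hx
    rw [mb_last]
    exact h6 x.val hx

theorem mb_anti {V : Type} {G : SimpleGraph V} {S : Set V} {A B : List V}
    (hA : ∀ a ∈ A, a ∈ S) (hB : ∀ a ∈ B, a ∈ S) (h : Anti G A B) :
    Anti (G.induce S) (A.attachWith (fun v => v ∈ S) hA) (B.attachWith (fun v => v ∈ S) hB) := by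
  intro a ha b hb
  rw [List.mem_attachWith] at ha hb
  have := h a.val ha b.val hb
  exact ⟨fun e => this.1 (congrArg Subtype.val e), this.2⟩

theorem mb_girth {V : Type} {G : SimpleGraph V} (S : Set V) (h : Girth5 G) :
    Girth5 (G.induce S) := by
  refine ⟨fun a b c h1 h2 h3 => h.1 a b c h1 h2 h3, ?_⟩
  intro a b c d hac hbd h1 h2 h3 h4
  exact h.2 a b c d (fun e => hac (Subtype.ext e)) (fun e => hbd (Subtype.ext e)) h1 h2 h3 h4

theorem mb_path {V : Type} [Finite V] {G : SimpleGraph V} (hG : Girth5 G) (hTH1 : ST_TH1)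
    (hPP : ST_PP) {u w : V} {A B C : List V} (h : BSys G u w A B C)
    (hcov : ∀ x, x = u ∨ x = w ∨ x ∈ A ∨ x ∈ B ∨ x ∈ C) (z : V) (hz : z ∈ A) :
    Circ (G.induce {z}ᶜ) := by
  refine hPP V G u w z A h.linkA ?_ hz ?_
  · intro x hx y ha
    rcases hcov y with hy | hy | hy | hy | hy
    · exact Or.inr (Or.inl hy)
    · exact Or.inr (Or.inr hy)
    · exact Or.inl hy
    · exact absurd ha (h.AB x hx y hy).2
    · exact absurd ha (h.AC x hx y hy).2
  · have hB : ∀ b ∈ B, b ∈ {x | x ∉ A} := fun b hb ha => (h.AB b ha b hb).1 rfl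
    have hC : ∀ b ∈ C, b ∈ {x | x ∉ A} := fun b hb ha => (h.AC b ha b hb).1 rfl
    have hu : u ∈ {x | x ∉ A} := h.linkA.2.2.1
    have hw : w ∈ {x | x ∉ A} := h.linkA.2.2.2.1
    refine hTH1 _ (G.induce {x | x ∉ A}) ⟨u, hu⟩ ⟨w, hw⟩ _ _ (mb_girth _ hG) h.adj
      (mb_link hB hu hw h.linkB) (mb_link hC hu hw h.linkC) (mb_anti hB hC h.BC) ?_
    rintro ⟨x, hx⟩
    simp only [List.mem_attachWith, Subtype.mk.injEq]
    rcases hcov x with hy | hy | hy | hy | hy
    · tauto
    · tauto
    · exact absurd hy hx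
    · tauto
    · tauto

theorem st_MB (hTH1 : ST_TH1) (hPP : ST_PP) (hPS : ST_PS) (hEMB : ST_EMB) (hREV : ST_REV) :
    ST_MB := by
  intro V _ G hG hF x
  obtain ⟨u, w, A, B, C, h, hcov⟩ := hF
  rcases hcov x with hx | hx | hx | hx | hx
  · subst hx
    refine mt_star hPS hEMB (hREV V G _ _ _ h.linkA) (hREV V G _ _ _ h.linkB)
      (hREV V G _ _ _ h.linkC) (mt_antir h.AB) (mt_antir h.AC) (mt_antir h.BC) ?_
    intro y
    simp only [List.mem_reverse]
    have := hcov y
    tauto
  · subst hx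
    exact mt_star hPS hEMB h.linkA h.linkB h.linkC h.AB h.AC h.BC hcov
  · exact mb_path hG hTH1 hPP h hcov x hx
  · have h' : BSys G u w B A C := ⟨h.adj, h.linkB, h.linkA, h.linkC, mt_anti h.AB, h.BC,
      h.AC, h.lB, h.lA, h.lC⟩
    refine mb_path hG hTH1 hPP h' ?_ x hx
    intro y
    have := hcov y
    tauto
  · have h' : BSys G u w C B A := ⟨h.adj, h.linkC, h.linkB, h.linkA, mt_anti h.BC,
      mt_anti h.AC, mt_anti h.AB, h.lC, h.lB, h.lA⟩
    refine mb_path hG hTH1 hPP h' ?_ x hx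
    intro y
    have := hcov y
    tauto

end Pool.Agent.Helper64.HG
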