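import Pool.Agent.Helper64.HG.Stmts

/-! Module MK2: deleting a branch vertex of a full subdivided `K₄` leaves a circle graph. -/

set_option autoImplicit false

namespace Pool.Agent.Helper64.HG

theorem mk2_lift {V : Type} (G : SimpleGraph V) (L : List V) (h : IC G L) :
    ∃ L' : List ({v | v ∈ L} : Set V), IC (G.induce {v | v ∈ L}) L' ∧ ∀ x, x ∈ L' := by
  obtain ⟨h3, hn, ha⟩ := h
  refine ⟨L.attachWith (fun v => v ∈ {v | v ∈ L}) (fun _ h => h), ⟨?_, ?_, ?_⟩, ?_⟩
  · simpa using h3
  · apply List.Nodup.of_map (f := Subtype.val)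
    simpa [List.attachWith_map_subtype_val] using hn
  · intro i j hi hj hij
    have hi' : i < L.length := by simpa using hi
    have hj' : j < L.length := by simpa using hj
    have := ha i j hi' hj' hij
    rw [List.getElem_attachWith, List.getElem_attachWith]
    simp only [List.length_attachWith]
    exact this
  · rintro ⟨x, hx⟩
    rw [List.mem_attachWith]
    exact hx

theorem mk2_ip {V : Type} {G : SimpleGraph V} {x : Fin 4 → V} {A : Fin 4 → Fin 4 → List V}
    (h : KSys G x A) {i j : Fin 4} (hij : i ≠ j) : IP G (A i j) := by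
  by_cases he : A i j = []
  · rw [he]
    exact ⟨List.nodup_nil, fun i j hi => absurd hi (by simp)⟩
  · exact (h.link i j hij he).2.1

theorem mk2_nx {V : Type} {G : SimpleGraph V} {x : Fin 4 → V} {A : Fin 4 → Fin 4 → List V}
    (h : KSys G x A) {i j : Fin 4} (hij : i ≠ j) (k : Fin 4) : x k ∉ A i j := by
  intro hk
  have he : A i j ≠ [] := List.ne_nil_of_mem hk
  obtain ⟨-, -, h1, h2, -, -⟩ := h.link i j hij he
  by_cases hki : k = i
  · subst hki
    exact h1 hk
  by_cases hkj : k = j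
  · subst hkj
    exact h2 hk
  exact (h.antix i j k hij hki hkj (x k) (List.mem_singleton_self _) (x k) hk).1 rfl

theorem mk2_xadj {V : Type} {G : SimpleGraph V} {x : Fin 4 → V} {A : Fin 4 → Fin 4 → List V}
    (h : KSys G x A) {i j : Fin 4} (hij : i ≠ j) (k : Fin 4) (y : V) (hy : y ∈ A i j)
    (hkj : k ≠ j) (ha : G.Adj y (x k)) : (A i j).head? = some y ∧ x k = x i := by
  have he : A i j ≠ [] := List.ne_nil_of_mem hy
  obtain ⟨-, -, -, -, h1, h2⟩ := h.link i j hij he
  by_cases hki : k = i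
  · subst hki
    exact ⟨(h1 y hy).1 ha.symm, rfl⟩
  exact absurd ha.symm (h.antix i j k hij hki hkj (x k) (List.mem_singleton_self _) y hy).2

theorem mk2_link {V : Type} {G : SimpleGraph V} {x : Fin 4 → V} {A : Fin 4 → Fin 4 → List V}
    (hCAT : ST_CAT) (hCNS : ST_CNS) (hSNC : ST_SNC)
    (h : KSys G x A) {i j k : Fin 4} (hij : i ≠ j) (hjk : j ≠ k) (hik : i ≠ k) :
    Link G (x i) (A i j ++ x j :: A j k) (x k) := by
  have nij : x i ≠ x j := fun e => hij (h.inj e)
  have njk : x j ≠ x k := fun e => hjk (h.inj e)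
  have nik : x i ≠ x k := fun e => hik (h.inj e)
  by_cases e1 : A i j = []
  · by_cases e2 : A j k = []
    · rw [e1, e2]
      have a1 := h.edge i j hij e1
      have a2 := h.edge j k hjk e2
      refine ⟨by simp, ⟨by simp, ?_⟩, by simpa using nij, by simpa using njk.symm, ?_, ?_⟩
      · intro a b ha hb hab
        simp only [List.nil_append, List.length_singleton] at ha hb
        omega
      · intro y hy
        simp only [List.nil_append, List.mem_singleton] at hy
        subst hy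
        simpa using a1
      · intro y hy
        simp only [List.nil_append, List.mem_singleton] at hy
        subst hy
        simpa using a2.symm
    · rw [e1, List.nil_append]
      exact hCNS V G _ _ _ _ (h.edge i j hij e1) (h.link j k hjk e2)
        (h.antix j k i hjk hij hik) njk.symm (fun a => h.nedge j k hjk e2 a.symm)
  · by_cases e2 : A j k = []
    · rw [e2]
      exact hSNC V G _ _ _ _ (h.link i j hij e1) (h.edge j k hjk e2)
        (h.antix i j k hij hik.symm hjk.symm) nij (h.nedge i j hij e1)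
    · refine hCAT V G _ _ _ _ _ (h.link i j hij e1) (h.link j k hjk e2)
        (h.anti i j j k hij hjk ?_ ?_) (h.antix j k i hjk hij hik)
        (h.antix i j k hij hik.symm hjk.symm) nij (h.nedge i j hij e1) njk.symm
        (fun a => h.nedge j k hjk e2 a.symm)
      · rintro ⟨h1, -⟩
        exact hij h1
      · rintro ⟨h1, -⟩
        exact hik h1

theorem mk2_cyc {V : Type} {G : SimpleGraph V} {x : Fin 4 → V} {A : Fin 4 → Fin 4 → List V}
    (hCY1 : ST_CY1) (hCY2 : ST_CY2) (hCAT : ST_CAT) (hCNS : ST_CNS) (hSNC : ST_SNC)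
    (h : KSys G x A) :
    IC G (x 1 :: ((A 1 2 ++ x 2 :: A 2 3) ++ x 3 :: (A 1 3).reverse)) := by
  have hl := mk2_link hCAT hCNS hSNC h (i := 1) (j := 2) (k := 3) (by decide) (by decide)
    (by decide)
  have n13 : x 1 ≠ x 3 := fun e => absurd (h.inj e) (by decide)
  by_cases e : A 1 3 = []
  · rw [e]
    exact hCY1 V G _ _ _ hl (h.edge 1 3 (by decide) e)
  · refine hCY2 V G _ _ _ _ hl (h.link 1 3 (by decide) e) ?_ n13 (h.nedge 1 3 (by decide) e)
    intro a ha b hb
    simp only [List.mem_append, List.mem_cons] at ha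
    rcases ha with ha | ha | ha
    · exact h.anti 1 2 1 3 (by decide) (by decide) (by decide) (by decide) a ha b hb
    · exact h.antix 1 3 2 (by decide) (by decide) (by decide) a (by simp [ha]) b hb
    · exact h.anti 2 3 1 3 (by decide) (by decide) (by decide) (by decide) a ha b hb

theorem mk2_zero {V : Type} [Finite V] {G : SimpleGraph V} {x : Fin 4 → V}
    {A : Fin 4 → Fin 4 → List V}
    (hCYC : ST_CYC) (hCY1 : ST_CY1) (hCY2 : ST_CY2) (hPS : ST_PS) (hCAT : ST_CAT) (hCNS : ST_CNS)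
    (hSNC : ST_SNC) (hEMB : ST_EMB) (h : KSys G x A)
    (hcov : ∀ v, (∃ i, v = x i) ∨ ∃ i j, i ≠ j ∧ v ∈ A i j) : Circ (G.induce {x 0}ᶜ) := by
  set L : List V := x 1 :: ((A 1 2 ++ x 2 :: A 2 3) ++ x 3 :: (A 1 3).reverse) with hL
  have hic : IC G L := mk2_cyc hCY1 hCY2 hCAT hCNS hSNC h
  have hmem : ∀ v, v ∈ L → (∃ k : Fin 4, k ≠ 0 ∧ v = x k) ∨
      ∃ i j : Fin 4, i ≠ 0 ∧ j ≠ 0 ∧ i ≠ j ∧ v ∈ A i j := by
    intro v hv
    simp only [hL, List.mem_append, List.mem_cons, List.mem_reverse] at hv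
    rcases hv with hv | (hv | hv | hv) | hv | hv
    · exact Or.inl ⟨1, by decide, hv⟩
    · exact Or.inr ⟨1, 2, by decide, by decide, by decide, hv⟩
    · exact Or.inl ⟨2, by decide, hv⟩
    · exact Or.inr ⟨2, 3, by decide, by decide, by decide, hv⟩
    · exact Or.inl ⟨3, by decide, hv⟩
    · exact Or.inr ⟨1, 3, by decide, by decide, by decide, hv⟩
  have hrv : ∀ i j v, v ∈ A i j ↔ v ∈ A j i := by
    intro i j v
    rw [h.rev i j, List.mem_reverse]
  have h0 : Circ (G.induce {v | v ∈ L}) := by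
    obtain ⟨L', h1, h2⟩ := mk2_lift G L hic
    exact hCYC _ _ L' h1 h2
  -- the elements of `A k 0` have no neighbours in the other parts
  have key : ∀ k : Fin 4, k ≠ 0 → ∀ y ∈ A k 0, ∀ z,
      (z ∈ L ∨ ∃ k' : Fin 4, k' ≠ 0 ∧ k' ≠ k ∧ z ∈ A k' 0) →
      y ≠ z ∧ (G.Adj y z → (A k 0).head? = some y ∧ z = x k) := by
    intro k hk y hy z hz
    rcases hz with hz | ⟨k', hk', hkk, hz⟩
    · rcases hmem z hz with ⟨k', hk', rfl⟩ | ⟨i, j, hi, hj, hij, hz'⟩
      · refine ⟨fun e => mk2_nx h hk k' (e ▸ hy), fun ha => ?_⟩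
        exact mk2_xadj h hk k' y hy hk' ha
      · have := h.anti k 0 i j hk hij (fun e => hj e.2.symm) (fun e => hi e.2.symm) y hy z hz'
        exact ⟨this.1, fun ha => absurd ha this.2⟩
    · have := h.anti k 0 k' 0 hk hk' (fun e => hkk e.1.symm) (fun e => hk e.1) y hy z hz
      exact ⟨this.1, fun ha => absurd ha this.2⟩
  have step : ∀ (S : Set V) (k : Fin 4), k ≠ 0 →
      (∀ z ∈ S, z ∈ L ∨ ∃ k' : Fin 4, k' ≠ 0 ∧ k' ≠ k ∧ z ∈ A k' 0) →
      Circ (G.induce S) → Circ (G.induce (S ∪ {v | v ∈ A k 0})) := by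
    intro S k hk hS hc
    refine hPS V G S (A k 0) (x k) (mk2_ip h hk) ?_ ?_ hc
    · intro y hy hyS
      exact (key k hk y hy y (hS y hyS)).1 rfl
    · intro y hy z hz ha
      exact (key k hk y hy z (hS z hz)).2 ha
  have h1 := step _ 1 (by decide) (fun z hz => Or.inl hz) h0
  have h2 := step _ 2 (by decide) (fun z hz => by
    rcases hz with hz | hz
    · exact Or.inl hz
    · exact Or.inr ⟨1, by decide, by decide, hz⟩) h1
  have h3 := step _ 3 (by decide) (fun z hz => by
    rcases hz with (hz | hz) | hz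
    · exact Or.inl hz
    · exact Or.inr ⟨1, by decide, by decide, hz⟩
    · exact Or.inr ⟨2, by decide, by decide, hz⟩) h2
  have hsub : ({x 0}ᶜ : Set V) ⊆
      ((({v | v ∈ L} ∪ {v | v ∈ A 1 0}) ∪ {v | v ∈ A 2 0}) ∪ {v | v ∈ A 3 0}) := by
    intro v hv
    simp only [Set.mem_compl_iff, Set.mem_singleton_iff] at hv
    simp only [Set.mem_union, Set.mem_ofPred_eq, hL, List.mem_append, List.mem_cons,
      List.mem_reverse]
    rcases hcov v with ⟨i, rfl⟩ | ⟨i, j, hij, hvA⟩
    · fin_cases i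
      · exact absurd rfl hv
      · simp
      · simp
      · simp
    · fin_cases i <;> fin_cases j
      · exact absurd rfl hij
      · have := (hrv 0 1 v).1 hvA
        tauto
      · have := (hrv 0 2 v).1 hvA
        tauto
      · have := (hrv 0 3 v).1 hvA
        tauto
      · have : v ∈ A 1 0 := hvA
        tauto
      · exact absurd rfl hij
      · have : v ∈ A 1 2 := hvA
        tauto
      · have : v ∈ A 1 3 := hvA
        tauto
      · have : v ∈ A 2 0 := hvA
        tauto
      · have := (hrv 2 1 v).1 hvA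
        tauto
      · exact absurd rfl hij
      · have : v ∈ A 2 3 := hvA
        tauto
      · have : v ∈ A 3 0 := hvA
        tauto
      · have := (hrv 3 1 v).1 hvA
        tauto
      · have := (hrv 3 2 v).1 hvA
        tauto
      · exact absurd rfl hij
  exact hEMB _ _ _ _ (SimpleGraph.induceHomOfLE G hsub) h3

theorem st_MK2 (hCYC : ST_CYC) (hCY1 : ST_CY1) (hCY2 : ST_CY2) (hPS : ST_PS) (hCAT : ST_CAT)
    (hCNS : ST_CNS) (hSNC : ST_SNC) (hEMB : ST_EMB) (hKPERM : ST_KPERM) : ST_MK2 := by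
  intro V _ G x A _ h hcov i
  have hk := hKPERM V G x A (Equiv.swap 0 i) h
  have hc : ∀ v, (∃ k, v = x (Equiv.swap 0 i k)) ∨
      ∃ k l, k ≠ l ∧ v ∈ A (Equiv.swap 0 i k) (Equiv.swap 0 i l) := by
    intro v
    rcases hcov v with ⟨k, hk⟩ | ⟨k, l, hkl, hv⟩
    · exact Or.inl ⟨Equiv.swap 0 i k, by rw [Equiv.swap_apply_self]; exact hk⟩
    · refine Or.inr ⟨Equiv.swap 0 i k, Equiv.swap 0 i l, ?_, ?_⟩
      · exact fun e => hkl ((Equiv.swap 0 i).injective e)
      · rw [Equiv.swap_apply_self, Equiv.swap_apply_self]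
        exact hv
  have := mk2_zero hCYC hCY1 hCY2 hPS hCAT hCNS hSNC hEMB hk hc
  rw [Equiv.swap_apply_left] at this
  exact this

end Pool.Agent.Helper64.HG
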