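import Pool.Agent.Helper5.HG.MK2

/-! Module MT: deleting a vertex of a full theta leaves a circle graph. -/

set_option autoImplicit false

namespace Pool.Agent.Helper64.HG

theorem mt_single {V : Type} (G : SimpleGraph V) (w : V) : Circ (G.induce {w}) := by
  have hs : Subsingleton ({w} : Set V) := by
    constructor
    rintro ⟨a, ha⟩ ⟨b, hb⟩
    simp only [Set.mem_singleton_iff] at ha hb
    exact Subtype.ext (ha.trans hb.symm)
  refine ⟨fun _ => 0, fun _ => 1, ?_, ?_, ?_, ?_, ?_⟩
  · intro v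
    norm_num
  · intro a b _
    exact Subsingleton.elim a b
  · intro a b _
    exact Subsingleton.elim a b
  · intro a b
    norm_num
  · intro a b
    rw [Subsingleton.elim a b]
    constructor
    · intro h
      exact absurd h ((G.induce {w}).irrefl)
    · rintro (h | h)
      · exact absurd h.1 (lt_irrefl _)
      · exact absurd h.1 (lt_irrefl _)

theorem mt_star {V : Type} [Finite V] {G : SimpleGraph V} (hPS : ST_PS) (hEMB : ST_EMB)
    {r s : V} {A B C : List V} (hA : Link G r A s) (hB : Link G r B s) (hC : Link G r C s)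
    (hAB : Anti G A B) (hAC : Anti G A C) (hBC : Anti G B C)
    (hcov : ∀ x, x = r ∨ x = s ∨ x ∈ A ∨ x ∈ B ∨ x ∈ C) : Circ (G.induce {s}ᶜ) := by
  have step : ∀ (S : Set V) (D : List V), Link G r D s →
      (∀ z ∈ S, z = r ∨ ∀ d ∈ D, d ≠ z ∧ ¬ G.Adj d z) →
      Circ (G.induce S) → Circ (G.induce (S ∪ {v | v ∈ D})) := by
    intro S D hD hS hc
    refine hPS V G S D r hD.2.1 ?_ ?_ hc
    · intro y hy hyS
      rcases hS y hyS with rfl | h
      · exact hD.2.2.1 hy
      · exact (h y hy).1 rfl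
    · intro y hy z hz ha
      rcases hS z hz with rfl | h
      · exact ⟨(hD.2.2.2.2.1 y hy).1 ha.symm, rfl⟩
      · exact absurd ha (h y hy).2
  have h0 := mt_single G r
  have h1 := step _ A hA (fun z hz => Or.inl hz) h0
  have h2 := step _ B hB (fun z hz => by
    rcases hz with hz | hz
    · exact Or.inl hz
    · exact Or.inr fun d hd => ⟨(hAB z hz d hd).1.symm, fun e => (hAB z hz d hd).2 e.symm⟩) h1
  have h3 := step _ C hC (fun z hz => by
    rcases hz with (hz | hz) | hz
    · exact Or.inl hz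
    · exact Or.inr fun d hd => ⟨(hAC z hz d hd).1.symm, fun e => (hAC z hz d hd).2 e.symm⟩
    · exact Or.inr fun d hd => ⟨(hBC z hz d hd).1.symm, fun e => (hBC z hz d hd).2 e.symm⟩) h2
  have hsub : ({s}ᶜ : Set V) ⊆ ((({r} ∪ {v | v ∈ A}) ∪ {v | v ∈ B}) ∪ {v | v ∈ C}) := by
    intro v hv
    rcases hcov v with h | h | h | h | h
    · exact Or.inl (Or.inl (Or.inl h))
    · exact absurd h hv
    · exact Or.inl (Or.inl (Or.inr h))
    · exact Or.inl (Or.inr h)
    · exact Or.inr h
  exact hEMB _ _ _ _ (SimpleGraph.induceHomOfLE G hsub) h3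

theorem mt_path {V : Type} [Finite V] {G : SimpleGraph V} (hCYC : ST_CYC) (hCY2 : ST_CY2)
    (hPP : ST_PP) (hEMB : ST_EMB) {u w : V} {A B C : List V} (h : TSys G u w A B C)
    (hcov : ∀ x, x = u ∨ x = w ∨ x ∈ A ∨ x ∈ B ∨ x ∈ C) (z : V) (hz : z ∈ A) :
    Circ (G.induce {z}ᶜ) := by
  refine hPP V G u w z A h.linkA ?_ hz ?_
  · intro x hx y ha
    rcases hcov y with hy | hy | hy | hy | hy
    · exact Or.inr (Or.inl hy)
    · exact Or.inr (Or.inr hy)
    · exact Or.inl hy
    · exact absurd ha (h.AB x hx y hy).2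
    · exact absurd ha (h.AC x hx y hy).2
  · have hic := hCY2 V G u w B C h.linkB h.linkC h.BC h.ne h.nadj
    obtain ⟨L', h1, h2⟩ := mk2_lift G _ hic
    have hc := hCYC _ _ L' h1 h2
    refine hEMB _ _ _ _ (SimpleGraph.induceHomOfLE G ?_) hc
    intro v hv
    simp only [Set.mem_ofPred_eq] at hv
    simp only [Set.mem_ofPred_eq, List.mem_cons, List.mem_append, List.mem_reverse]
    rcases hcov v with hy | hy | hy | hy | hy
    · tauto
    · tauto
    · exact absurd hy hv
    · tauto
    · tauto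

theorem mt_anti {V : Type} {G : SimpleGraph V} {A B : List V} (h : Anti G A B) : Anti G B A :=
  fun b hb a ha => ⟨(h a ha b hb).1.symm, fun e => (h a ha b hb).2 e.symm⟩

theorem mt_antir {V : Type} {G : SimpleGraph V} {A B : List V} (h : Anti G A B) :
    Anti G A.reverse B.reverse :=
  fun a ha b hb => h a (List.mem_reverse.1 ha) b (List.mem_reverse.1 hb)

theorem st_MT (hCYC : ST_CYC) (hCY2 : ST_CY2) (hPP : ST_PP) (hPS : ST_PS) (hEMB : ST_EMB)
    (hREV : ST_REV) : ST_MT := by
  intro V _ G _ hF x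
  obtain ⟨u, w, A, B, C, h, hcov⟩ := hF
  rcases hcov x with hx | hx | hx | hx | hx
  · subst hx
    refine mt_star hPS hEMB (hREV V G _ _ _ h.linkA) (hREV V G _ _ _ h.linkB)
      (hREV V G _ _ _ h.linkC) (mt_antir h.AB) (mt_antir h.AC) (mt_antir h.BC) ?_
    intro y
    simp only [List.mem_reverse]
    have := hcov y
    tauto
  · subst hx
    exact mt_star hPS hEMB h.linkA h.linkB h.linkC h.AB h.AC h.BC hcov
  · exact mt_path hCYC hCY2 hPP hEMB h hcov x hx
  · have h' : TSys G u w B A C := ⟨h.ne, h.nadj, h.linkB, h.linkA, h.linkC, mt_anti h.AB, h.BC,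
      h.AC, h.lB, h.lA, h.lC⟩
    refine mt_path hCYC hCY2 hPP hEMB h' ?_ x hx
    intro y
    have := hcov y
    tauto
  · have h' : TSys G u w C B A := ⟨h.ne, h.nadj, h.linkC, h.linkB, h.linkA, mt_anti h.BC,
      mt_anti h.AC, mt_anti h.AB, h.lC, h.lB, h.lA⟩
    refine mt_path hCYC hCY2 hPP hEMB h' ?_ x hx
    intro y
    have := hcov y
    tauto

end Pool.Agent.Helper64.HG
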