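import Pool.Agent.Helper64.HG.Stmts

/-! Module REP: representation of a connected piece and its attachments. -/

set_option autoImplicit false

namespace Pool.Agent.Helper64.HG

theorem rep_const {V : Type} {G : SimpleGraph V} {K : Set V} (hK : (G.induce K).Preconnected)
    (P : V → Prop) (hP : ∀ a ∈ K, ∀ b ∈ K, G.Adj a b → P a → P b) :
    (∀ a ∈ K, P a) ∨ (∀ a ∈ K, ¬ P a) := by
  by_cases h : ∃ a ∈ K, P a
  · left
    obtain ⟨a, ha, hPa⟩ := h
    intro b hb
    obtain ⟨W⟩ := hK ⟨a, ha⟩ ⟨b, hb⟩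
    have key : ∀ (x y : K), (G.induce K).Walk x y → P x.val → P y.val := by
      intro x y W
      induction W with
      | nil => exact fun h => h
      | @cons x y z hxy _ ih => exact fun h => ih (hP x.val x.2 y.val y.2 hxy h)
    exact key _ _ W hPa
  · right
    intro a ha hPa
    exact h ⟨a, ha, hPa⟩

theorem st_REP (hROT : ST_ROT) : ST_REP := by
  intro V _ G v K N hKF hK hN _ hC
  classical
  set T : Set V := insert v (K ∪ N) with hT
  have hvT : v ∈ T := Set.mem_insert _ _
  have hKT : ∀ k ∈ K, k ∈ T := fun k hk => Set.mem_insert_of_mem _ (Or.inl hk)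
  have hNT : ∀ n ∈ N, n ∈ T := fun n hn => Set.mem_insert_of_mem _ (Or.inr hn)
  obtain ⟨l', r', hM, hv⟩ := hROT T (G.induce T) ⟨v, hvT⟩ hC
  let l : V → ℝ := fun x => if h : x ∈ T then l' ⟨x, h⟩ else 0
  let r : V → ℝ := fun x => if h : x ∈ T then r' ⟨x, h⟩ else 0
  have el : ∀ x (h : x ∈ T), l x = l' ⟨x, h⟩ := fun x h => dif_pos h
  have er : ∀ x (h : x ∈ T), r x = r' ⟨x, h⟩ := fun x h => dif_pos h
  have mlt : ∀ x ∈ T, l x < r x := fun x h => by rw [el x h, er x h]; exact hM.lt _
  have minjl : ∀ x ∈ T, ∀ y ∈ T, l x = l y → x = y := fun x hx y hy h => by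
    rw [el x hx, el y hy] at h
    exact congrArg Subtype.val (hM.injl h)
  have minjr : ∀ x ∈ T, ∀ y ∈ T, r x = r y → x = y := fun x hx y hy h => by
    rw [er x hx, er y hy] at h
    exact congrArg Subtype.val (hM.injr h)
  have mne : ∀ x ∈ T, ∀ y ∈ T, l x ≠ r y := fun x hx y hy => by
    rw [el x hx, er y hy]
    exact hM.ne _ _
  have madj : ∀ x ∈ T, ∀ y ∈ T, (G.Adj x y ↔ Ovl l r x y) := fun x hx y hy => by
    have := hM.adj ⟨x, hx⟩ ⟨y, hy⟩
    unfold Ovl at this ⊢
    rw [el x hx, er x hx, el y hy, er y hy]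
    exact this
  have mv : ∀ x ∈ T, x ≠ v → l v < l x := fun x hx hxv => by
    rw [el v hvT, el x hx]
    exact hv _ (fun e => hxv (congrArg Subtype.val e))
  have nK : ∀ n ∈ N, ∀ k ∈ K, n ≠ k := fun n hn k hk e => (hKF hk).2 (e ▸ hN n hn)
  have pN : ∀ n ∈ N, l n < r v ∧ r v < r n := by
    intro n hn
    have h1 := (madj v hvT n (hNT n hn)).1 (hN n hn)
    have h2 := mv n (hNT n hn) (hN n hn).ne'
    rcases h1 with h1 | h1
    · exact h1.2
    · exact absurd h1.1 (not_lt.2 h2.le)
  have pK : ∀ k ∈ K, r k < r v ∨ r v < l k := by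
    intro k hk
    have h1 : ¬ Ovl l r v k := fun h => (hKF hk).2 ((madj v hvT k (hKT k hk)).2 h)
    have h2 := mv k (hKT k hk) (hKF hk).1
    have h3 : r k ≠ r v := fun e => (hKF hk).1 (minjr k (hKT k hk) v hvT e)
    have h4 : l k ≠ r v := mne k (hKT k hk) v hvT
    by_contra hcon
    push Not at hcon
    apply h1
    left
    exact ⟨h2, lt_of_le_of_ne hcon.2 h4, lt_of_le_of_ne hcon.1 h3.symm⟩
  have hconst := rep_const hK (fun k => r k < r v) (by
    intro a ha b hb hab h
    rcases pK b hb with h1 | h1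
    · exact h1
    · exfalso
      have h2 := mlt b (hKT b hb)
      have h3 := mlt a (hKT a ha)
      rcases (madj a (hKT a ha) b (hKT b hb)).1 hab with h4 | h4
      · linarith [h4.2.1]
      · linarith [h4.1])
  rcases hconst with hin | hout
  · refine ⟨l, l, r, ?_⟩
    refine ⟨fun k hk => mlt k (hKT k hk), fun n hn n' hn' => minjl n (hNT n hn) n' (hNT n' hn'),
      fun k hk k' hk' => minjl k (hKT k hk) k' (hKT k' hk'),
      fun k hk k' hk' => minjr k (hKT k hk) k' (hKT k' hk'),
      fun k hk k' hk' => mne k (hKT k hk) k' (hKT k' hk'), ?_,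
      fun n hn k hk => mne n (hNT n hn) k (hKT k hk),
      fun k hk k' hk' => madj k (hKT k hk) k' (hKT k' hk'), ?_⟩
    · intro n hn k hk e
      exact nK n hn k hk (minjl n (hNT n hn) k (hKT k hk) e)
    · intro n hn k hk
      rw [madj n (hNT n hn) k (hKT k hk)]
      have h1 := hin k hk
      have h2 := (pN n hn).2
      constructor
      · rintro (h | h)
        · linarith [h.2.2]
        · exact ⟨h.1, h.2.1⟩
      · intro h
        exact Or.inr ⟨h.1, h.2, by linarith⟩
  · refine ⟨r, l, r, ?_⟩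
    refine ⟨fun k hk => mlt k (hKT k hk), fun n hn n' hn' => minjr n (hNT n hn) n' (hNT n' hn'),
      fun k hk k' hk' => minjl k (hKT k hk) k' (hKT k' hk'),
      fun k hk k' hk' => minjr k (hKT k hk) k' (hKT k' hk'),
      fun k hk k' hk' => mne k (hKT k hk) k' (hKT k' hk'),
      fun n hn k hk => (mne k (hKT k hk) n (hNT n hn)).symm, ?_,
      fun k hk k' hk' => madj k (hKT k hk) k' (hKT k' hk'), ?_⟩
    · intro n hn k hk e
      exact nK n hn k hk (minjr n (hNT n hn) k (hKT k hk) e)
    · intro n hn k hk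
      rw [madj n (hNT n hn) k (hKT k hk)]
      have h1 : r v < l k := (pK k hk).resolve_left (hout k hk)
      have h2 := (pN n hn).1
      constructor
      · rintro (h | h)
        · exact ⟨h.2.1, h.2.2⟩
        · linarith [h.1]
      · intro h
        exact Or.inl ⟨by linarith, h.1, h.2⟩

end Pool.Agent.Helper64.HG
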